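import Pool.Agent.W587.MX.Stm

/-!
# Project MX: the disc argument
-/

set_option autoImplicit false

namespace Pool.Agent.W2.MX

open Pool.Agent.W587.MX Set Filter Topology Metric

theorem isOpen_PB (η : ℝ) : IsOpen (PB η) := by
  have h1 : IsOpen {u : ℂ | 0 < ‖u‖} := isOpen_lt continuous_const continuous_norm
  have h2 : IsOpen {u : ℂ | ‖u‖ < η} := isOpen_lt continuous_norm continuous_const
  exact h1.inter h2

theorem disc (h1 : T1_UNIQ) (hpb : ∀ η, IsPreconnected (PB η)) : T7_DISC := by
  intro f fs K κ η A R g h hf hfs hK hκ hη hmin hA hA0 hA1 hg hh hgs hhs hR hgh hR0 hRnc hinj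
  have hopen := isOpen_PB η
  have hsub : PB η ⊆ ball (0 : ℂ) η := by
    intro u hu
    rw [mem_ball_zero_iff]
    exact hu.2
  have hRan : AnalyticOnNhd ℂ R (ball (0 : ℂ) η) := hR.analyticOnNhd isOpen_ball
  have hballpc : IsPreconnected (ball (0 : ℂ) η) := (convex_ball (0 : ℂ) η).isPreconnected
  have h0mem : (0 : ℂ) ∈ ball (0 : ℂ) η := mem_ball_self hη
  have hgan : ∀ i, AnalyticOnNhd ℂ (g i) (PB η) := fun i => (hg i).analyticOnNhd hopen
  have hhan : ∀ i, AnalyticOnNhd ℂ (h i) (PB η) := fun i => (hh i).analyticOnNhd hopen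
  have hAan : AnalyticOnNhd ℂ A (PB η) := hA.analyticOnNhd hopen
  -- the key estimate on the punctured ball
  have key : ∀ u0 ∈ PB η, κ ≤ ‖R u0‖ := by
    intro u0 hu0
    have hAu := hAan u0 hu0
    have hd := hA1 u0 hu0
    obtain ⟨τ, hτan, hτ0, hτr, hτl⟩ : ∃ τ : ℂ → ℂ, AnalyticAt ℂ τ (A u0) ∧ τ (A u0) = u0 ∧
        (∀ᶠ a in 𝓝 (A u0), A (τ a) = a) ∧ (∀ᶠ u in 𝓝 u0, τ (A u) = u) := by
      refine ⟨hAu.hasStrictDerivAt.localInverse _ _ _ hd, hAu.analyticAt_localInverse hd,
        HasStrictFDerivAt.localInverse_apply_image .., ?_, ?_⟩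
      · exact HasStrictDerivAt.eventually_right_inverse ..
      · exact HasStrictDerivAt.eventually_left_inverse ..
    have hτc : Tendsto τ (𝓝 (A u0)) (𝓝 u0) := by
      have := hτan.continuousAt
      rw [ContinuousAt, hτ0] at this
      exact this
    have hτPB : ∀ᶠ a in 𝓝 (A u0), τ a ∈ PB η := hτc (hopen.mem_nhds hu0)
    have hAc : Tendsto A (𝓝 u0) (𝓝 (A u0)) := hAu.continuousAt
    have hInvZ : ∀ i, Inv f (A u0) (fun a => g i (τ a)) := by
      intro i
      refine ⟨?_, ?_⟩
      · have h3 : AnalyticAt ℂ (g i) (τ (A u0)) := by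
          rw [hτ0]
          exact hgan i u0 hu0
        exact h3.comp hτan
      · filter_upwards [hτPB, hτr] with a ha1 ha2
        have h4 := hgs i (τ a) ha1
        rw [ha2] at h4
        exact h4
    have hInvW : ∀ i, Inv fs (A u0) (fun a => h i (τ a)) := by
      intro i
      refine ⟨?_, ?_⟩
      · have h3 : AnalyticAt ℂ (h i) (τ (A u0)) := by
          rw [hτ0]
          exact hhan i u0 hu0
        exact h3.comp hτan
      · filter_upwards [hτPB, hτr] with a ha1 ha2
        have h4 := hhs i (τ a) ha1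
        rw [ha2] at h4
        exact h4
    have hprod : ∀ i, ∀ᶠ a in 𝓝 (A u0), g i (τ a) * h i (τ a) = R (τ a) := by
      intro i
      filter_upwards [hτPB] with a ha
      exact hgh i (τ a) ha
    have hSP : SP f fs K (A u0) (fun i => g i u0) (fun i => h i u0) := by
      refine ⟨hA0 u0 hu0, ?_, fun i a => g i (τ a), fun i a => h i (τ a), ?_, ?_, ?_, ?_⟩
      · -- injectivity
        intro i j hij
        by_contra hne
        have hij' : g i u0 = g j u0 := hij
        have h3 : ∀ᶠ t in 𝓝 u0, g j t = (fun a => g i (τ a)) (A t) := by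
          apply h1 (X := ℂ) f (A u0) (fun a => g i (τ a)) (g j) A u0 hf (hInvZ i)
            (hgan j u0 hu0).continuousAt hAu.continuousAt
          · change g j u0 = g i (τ (A u0))
            rw [hτ0, hij']
          · rfl
          · filter_upwards [hopen.mem_nhds hu0] with t ht
            exact (hgs j t ht).2
        have h4 : g i =ᶠ[𝓝 u0] g j := by
          filter_upwards [h3, hτl] with t ht1 ht2
          change g j t = g i (τ (A t)) at ht1
          rw [ht2] at ht1
          exact ht1.symm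
        have h5 := (hgan i).eqOn_of_preconnected_of_eventuallyEq (hgan j) (hpb η) hu0 h4
        obtain ⟨t, ht, hne'⟩ := hinj i j hne
        exact hne' (h5 ht)
      · intro i
        exact ⟨hInvZ i, by change g i (τ (A u0)) = g i u0; rw [hτ0]⟩
      · intro i
        exact ⟨hInvW i, by change h i (τ (A u0)) = h i u0; rw [hτ0]⟩
      · intro i j
        filter_upwards [hprod i, hprod j] with a ha1 ha2
        change g i (τ a) * h i (τ a) = g j (τ a) * h j (τ a)
        rw [ha1, ha2]
      · intro i hcon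
        have h3 : ∀ᶠ a in 𝓝 (A u0), R (τ a) = R u0 := by
          filter_upwards [hcon, hprod i] with a ha1 ha2
          change g i (τ a) * h i (τ a) = g i u0 * h i u0 at ha1
          rw [← ha2, ha1]
          exact hgh i u0 hu0
        have h4 : R =ᶠ[𝓝 u0] fun _ => R u0 := by
          filter_upwards [hAc h3, hτl] with t ht1 ht2
          have ht1' : R (τ (A t)) = R u0 := ht1
          rw [ht2] at ht1'
          exact ht1'
        have h5 := hRan.eqOn_of_preconnected_of_eventuallyEq (g := fun _ => R u0)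
          (fun z _ => analyticAt_const) hballpc (hsub hu0) h4
        obtain ⟨u, hu, hune⟩ := hRnc
        apply hune
        have h6 : R u = R u0 := h5 hu
        have h7 : R 0 = R u0 := h5 h0mem
        rw [h6, h7]
    have h8 := hmin (A u0) _ _ hSP ⟨0, hK⟩
    have h9 := hgh ⟨0, hK⟩ u0 hu0
    change κ ≤ ‖g ⟨0, hK⟩ u0 * h ⟨0, hK⟩ u0‖ at h8
    rw [h9] at h8
    exact h8
  have key2 : ∀ u ∈ ball (0 : ℂ) η, κ ≤ ‖R u‖ := by
    intro u hu
    by_cases hu0 : u = 0
    · rw [hu0, hR0]
    · apply key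
      exact ⟨norm_pos_iff.2 hu0, mem_ball_zero_iff.1 hu⟩
  have hRne : ∀ u ∈ ball (0 : ℂ) η, R u ≠ 0 := by
    intro u hu h0
    have := key2 u hu
    rw [h0, norm_zero] at this
    linarith
  have hinv : DifferentiableOn ℂ (fun u => (R u)⁻¹) (ball (0 : ℂ) η) := hR.inv hRne
  have hmax : IsMaxOn (norm ∘ fun u => (R u)⁻¹) (ball (0 : ℂ) η) 0 := by
    intro u hu
    change ‖(R u)⁻¹‖ ≤ ‖(R 0)⁻¹‖
    rw [norm_inv, norm_inv, hR0]
    exact inv_anti₀ hκ (key2 u hu)
  have hconst := Complex.eqOn_of_isPreconnected_of_isMaxOn_norm hballpc isOpen_ball hinv h0mem hmax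
  obtain ⟨u, hu, hune⟩ := hRnc
  apply hune
  have h3 : (R u)⁻¹ = (R 0)⁻¹ := hconst hu
  exact inv_injective h3

end Pool.Agent.W2.MX
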